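import Mathlib

/-!
The sum of `μ(d) / d ^ 2` over the `d < z` coprime to `N` is `(6 / π ^ 2) ∏_{p | N} (1 - p⁻²)⁻¹` up to `2 / z`; for `N = 10 q`
with `q` prime to `10` this is `(25 / (3 π ^ 2)) ∏_{p | q} (1 - p⁻²)⁻¹`.
-/

set_option autoImplicit false

namespace Pool.Agent.Helper8.SQ

open Filter Topology

/-- the terms -/
noncomputable def aa (N d : ℕ) : ℝ :=
  if d.Coprime N then (ArithmeticFunction.moebius d : ℝ) / (d : ℝ) ^ 2 else 0

theorem aa_abs (N d : ℕ) : |aa N d| ≤ 1 / (d : ℝ) ^ 2 := by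
  unfold aa
  split_ifs with h
  · rw [abs_div, abs_of_nonneg (sq_nonneg (d : ℝ))]
    apply div_le_div_of_nonneg_right _ (sq_nonneg _)
    exact_mod_cast ArithmeticFunction.abs_moebius_le_one
  · rw [abs_zero]
    positivity

theorem aa_summable (N : ℕ) : Summable (aa N) := by
  refine Summable.of_norm_bounded (Real.summable_one_div_nat_pow.2 one_lt_two) fun d => ?_
  rw [Real.norm_eq_abs]
  exact aa_abs N d

open ArithmeticFunction in
theorem aa_tsum (N : ℕ) (hN : N ≠ 0) :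
    ∑' d, aa N d = 6 / Real.pi ^ 2 * (∏ p ∈ N.primeFactors, (1 - 1 / (p : ℝ) ^ 2))⁻¹ := by
  have : NeZero N := ⟨hN⟩
  have hs : (1 : ℝ) < (2 : ℂ).re := by norm_num
  set P : ℝ := ∏ p ∈ N.primeFactors, (1 - 1 / (p : ℝ) ^ 2) with hP
  set χ : DirichletCharacter ℂ N := 1 with hχ
  have h1 := DirichletCharacter.LSeries.mul_mu_eq_one χ hs
  have h2 : LSeries (χ ·) 2 = (P : ℂ) * ((Real.pi : ℂ) ^ 2 / 6) := by
    have h3 := DirichletCharacter.LFunction_eq_LSeries χ hs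
    rw [← h3]
    have h4 := DirichletCharacter.LFunctionTrivChar_eq_mul_riemannZeta (N := N)
      (show (2 : ℂ) ≠ 1 by norm_num)
    rw [riemannZeta_two] at h4
    refine h4.trans ?_
    congr 1
    rw [hP, Complex.ofReal_prod]
    refine Finset.prod_congr rfl fun p _ => ?_
    have e1 : (p : ℂ) ^ (-2 : ℂ) = 1 / (p : ℂ) ^ 2 := by
      have e2 : (-2 : ℂ) = -((2 : ℕ) : ℂ) := by norm_num
      rw [e2, Complex.cpow_neg, Complex.cpow_natCast, one_div]
    rw [e1]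
    push_cast
    rfl
  have h6 : LSeries ((fun n : ℕ => (χ (n : ZMod N) : ℂ)) * (fun n : ℕ => ((moebius n : ℤ) : ℂ))) 2 =
      ((∑' d, aa N d : ℝ) : ℂ) := by
    rw [Complex.ofReal_tsum, LSeries]
    refine tsum_congr fun n => ?_
    rw [LSeries.term_def]
    unfold aa
    split_ifs with h7 h8 h8
    · subst h7
      simp
    · simp
    · have h9 : (χ (n : ZMod N) : ℂ) = 1 := by
        rw [hχ, MulChar.one_apply ((ZMod.isUnit_iff_coprime n N).2 h8)]
      have e3 : (n : ℂ) ^ (2 : ℂ) = (n : ℂ) ^ (2 : ℕ) := by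
        rw [← Complex.cpow_natCast]
        norm_num
      rw [Pi.mul_apply, h9, one_mul, e3]
      push_cast
      rfl
    · have h9 : (χ (n : ZMod N) : ℂ) = 0 := by
        rw [MulChar.map_nonunit]
        rw [ZMod.isUnit_iff_coprime]
        exact h8
      rw [Pi.mul_apply, h9, zero_mul, zero_div]
      simp
  rw [h2] at h1
  have h10 : ((P * (Real.pi ^ 2 / 6) : ℝ) : ℂ) * ((∑' d, aa N d : ℝ) : ℂ) = 1 := by
    rw [← h6]
    push_cast
    exact h1
  have h11 : (P * (Real.pi ^ 2 / 6) : ℝ) * (∑' d, aa N d) = 1 := by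
    exact_mod_cast h10
  have hP0 : P ≠ 0 := by
    intro h0
    rw [h0, zero_mul, zero_mul] at h11
    exact zero_ne_one h11
  have hpi : Real.pi ^ 2 ≠ 0 := pow_ne_zero 2 Real.pi_ne_zero
  have h12 : (∑' d, aa N d) = 1 / (P * (Real.pi ^ 2 / 6) : ℝ) := by
    rw [eq_div_iff (mul_ne_zero hP0 (by positivity)), mul_comm]
    exact h11
  rw [h12]
  field_simp

theorem sq_tail (z : ℕ) (hz : 1 ≤ z) (N : ℕ) (hN : z ≤ N) :
    ∑ d ∈ Finset.Ico z N, 1 / (d : ℝ) ^ 2 ≤ 1 / ((z : ℝ) - 1 / 2) - 1 / ((N : ℝ) - 1 / 2) := by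
  induction N, hN using Nat.le_induction with
  | base => simp
  | succ n hn ih =>
    rw [Finset.sum_Ico_succ_top hn]
    have hn1 : (1 : ℝ) ≤ n := by exact_mod_cast hz.trans hn
    have h1 : 1 / (n : ℝ) ^ 2 ≤ 1 / ((n : ℝ) - 1 / 2) - 1 / ((n : ℝ) + 1 / 2) := by
      have e1 : (0 : ℝ) < (n : ℝ) - 1 / 2 := by linarith
      have e2 : (0 : ℝ) < (n : ℝ) + 1 / 2 := by linarith
      rw [div_sub_div _ _ e1.ne' e2.ne', div_le_div_iff₀ (by positivity) (by positivity)]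
      nlinarith
    have e3 : (((n + 1 : ℕ) : ℝ) - 1 / 2) = (n : ℝ) + 1 / 2 := by
      push_cast
      ring
    rw [e3]
    linarith

theorem moebius_tail_gen (N : ℕ) (hN0 : N ≠ 0) (z : ℕ) (hz : 1 ≤ z) :
    |(∑ d ∈ (Finset.range z).filter (fun d => d.Coprime N),
      (ArithmeticFunction.moebius d : ℝ) / (d : ℝ) ^ 2) -
      6 / Real.pi ^ 2 * (∏ p ∈ N.primeFactors, (1 - 1 / (p : ℝ) ^ 2))⁻¹| ≤ 2 / (z : ℝ) := by
  have h0 : ∑ d ∈ (Finset.range z).filter (fun d => d.Coprime N),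
      (ArithmeticFunction.moebius d : ℝ) / (d : ℝ) ^ 2 = ∑ d ∈ Finset.range z, aa N d := by
    rw [Finset.sum_filter]
    rfl
  rw [h0, ← aa_tsum N hN0]
  have h1a : Tendsto (fun M : ℕ => (∑ d ∈ Finset.range z, aa N d) - ∑ d ∈ Finset.range M, aa N d)
      atTop (𝓝 ((∑ d ∈ Finset.range z, aa N d) - ∑' d, aa N d)) :=
    Tendsto.sub tendsto_const_nhds (aa_summable N).hasSum.tendsto_sum_nat
  refine le_of_tendsto h1a.abs ?_
  filter_upwards [eventually_ge_atTop z] with M hM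
  have hz1 : (1 : ℝ) ≤ z := by exact_mod_cast hz
  have hM1 : (1 : ℝ) ≤ M := by exact_mod_cast hz.trans hM
  have h2 : ∑ d ∈ Finset.range M, aa N d =
      ∑ d ∈ Finset.range z, aa N d + ∑ d ∈ Finset.Ico z M, aa N d :=
    (Finset.sum_range_add_sum_Ico _ hM).symm
  rw [h2, sub_add_cancel_left, abs_neg]
  refine (Finset.abs_sum_le_sum_abs _ _).trans ((Finset.sum_le_sum fun d _ => aa_abs N d).trans
    ((sq_tail z hz M hM).trans ?_))
  have e1 : 0 ≤ 1 / ((M : ℝ) - 1 / 2) := div_nonneg zero_le_one (by linarith)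
  have e2 : 1 / ((z : ℝ) - 1 / 2) ≤ 2 / z := by
    rw [div_le_div_iff₀ (by linarith) (by linarith)]
    linarith
  linarith

/-- the `d` coprime to `10` and to `q` -/
theorem moebius_tail_q (q : ℕ) (hq0 : q ≠ 0) (hq : q.Coprime 10) (z : ℕ) (hz : 1 ≤ z) :
    |(∑ d ∈ (Finset.range z).filter (fun d => d.Coprime 10 ∧ d.Coprime q),
      (ArithmeticFunction.moebius d : ℝ) / (d : ℝ) ^ 2) -
      25 / (3 * Real.pi ^ 2) * (∏ p ∈ q.primeFactors, (1 - 1 / (p : ℝ) ^ 2))⁻¹| ≤ 2 / (z : ℝ) := by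
  have h := moebius_tail_gen (10 * q) (by omega) z hz
  have h5 : (10 : ℕ).primeFactors = {2, 5} := by
    have e1 : (10 : ℕ) = 2 * 5 := by norm_num
    rw [e1, Nat.primeFactors_mul (by norm_num) (by norm_num),
      Nat.Prime.primeFactors Nat.prime_two, Nat.Prime.primeFactors Nat.prime_five]
    rfl
  have h6 : ∏ p ∈ (10 * q).primeFactors, (1 - 1 / (p : ℝ) ^ 2) =
      18 / 25 * ∏ p ∈ q.primeFactors, (1 - 1 / (p : ℝ) ^ 2) := by
    rw [hq.symm.primeFactors_mul, Finset.prod_union hq.symm.disjoint_primeFactors, h5,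
      Finset.prod_pair (by norm_num)]
    norm_num
  have h7 : (Finset.range z).filter (fun d => d.Coprime (10 * q)) =
      (Finset.range z).filter (fun d => d.Coprime 10 ∧ d.Coprime q) := by
    refine Finset.filter_congr fun d _ => ?_
    exact Nat.coprime_mul_iff_right
  rw [h6, h7, mul_inv] at h
  have h8 : 6 / Real.pi ^ 2 * ((18 / 25 : ℝ)⁻¹ *
      (∏ p ∈ q.primeFactors, (1 - 1 / (p : ℝ) ^ 2))⁻¹) =
      25 / (3 * Real.pi ^ 2) * (∏ p ∈ q.primeFactors, (1 - 1 / (p : ℝ) ^ 2))⁻¹ := by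
    rw [← mul_assoc]
    congr 1
    have hpi : Real.pi ^ 2 ≠ 0 := pow_ne_zero 2 Real.pi_ne_zero
    field_simp
    norm_num
  rwa [h8] at h

theorem moebius_tail (z : ℕ) (hz : 1 ≤ z) :
    |(∑ d ∈ (Finset.range z).filter (fun d => d.Coprime 10),
      (ArithmeticFunction.moebius d : ℝ) / (d : ℝ) ^ 2) - 25 / (3 * Real.pi ^ 2)| ≤
      2 / (z : ℝ) := by
  have h := moebius_tail_q 1 one_ne_zero (Nat.coprime_one_left 10) z hz
  simpa using h

end Pool.Agent.Helper8.SQ
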